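import Pool.Agent.H98.AO.GStmts

/-!
Module NCL: the normal subgroup generated by an internal set.
-/

set_option linter.unusedVariables false
set_option linter.unusedSectionVars false
set_option synthInstance.maxSize 100000
set_option maxRecDepth 4000

namespace AO

open SW

theorem ncl_cl {N : Type} [SetStr N] [ZF N] (G m X e : N) :
    Cl (fun y : N => ∃ g x gi u, E g G ∧ E x X ∧ E x G ∧ E gi G ∧ E u G ∧ Trp g x u m ∧
      Trp u gi y m ∧ Trp g gi e m) := by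
  unfold Trp PairIn IsOP
  infer_instance

theorem ncl (gen : GENStmt) : NCLStmt := by
  intro N _ _ hS G m _ hR X
  obtain ⟨cl, hcl, hcl1, -⟩ := gen N hS G m hR
  have hC := ncl_cl G m X (1 : {x : N // E x G}).1
  refine ⟨cl (sep G (fun y : N => ∃ g x gi u, E g G ∧ E x X ∧ E x G ∧ E gi G ∧ E u G ∧
      Trp g x u m ∧ Trp u gi y m ∧ Trp g gi (1 : {x : N // E x G}).1 m)), fun y => ?_⟩
  rw [hcl1]
  have hset : EX G (sep G (fun y : N => ∃ g x gi u, E g G ∧ E x X ∧ E x G ∧ E gi G ∧ E u G ∧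
      Trp g x u m ∧ Trp u gi y m ∧ Trp g gi (1 : {x : N // E x G}).1 m)) =
      Group.conjugatesOfSet (EX G X) := by
    ext ⟨y, hy⟩
    rw [Group.mem_conjugatesOfSet_iff]
    constructor
    · intro h
      have h' := (mem_sep' hC).1 h
      obtain ⟨-, g, x, gi, u, hg, hx, hxG, hgi, hu, h1, h2, h3⟩ := h'
      refine ⟨⟨x, hxG⟩, hx, ?_⟩
      rw [isConj_iff]
      refine ⟨⟨g, hg⟩, ?_⟩
      have e1 := (hR ⟨g, hg⟩ ⟨x, hxG⟩ ⟨u, hu⟩).1 h1
      have e2 := (hR ⟨u, hu⟩ ⟨gi, hgi⟩ ⟨y, hy⟩).1 h2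
      have e3 := (hR ⟨g, hg⟩ ⟨gi, hgi⟩ 1).1 h3
      rw [e1, ← e2, inv_eq_of_mul_eq_one_right e3]
    · rintro ⟨x, hx, hc⟩
      rw [isConj_iff] at hc
      obtain ⟨g, hc⟩ := hc
      refine (mem_sep' hC).2 ⟨hy, g.1, x.1, (g⁻¹).1, (g * x).1, g.2, hx, x.2, (g⁻¹).2,
        (g * x).2, (hR g x (g * x)).2 rfl, ?_, (hR g g⁻¹ 1).2 (mul_inv_cancel g)⟩
      exact (hR (g * x) g⁻¹ ⟨y, hy⟩).2 hc
  rw [hset]
  rfl

end AO
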