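import Pool.Agent.H98.AO.GStmts

/-!
Module NSI: internal subgroups of internal free groups are free.
-/

set_option linter.unusedVariables false
set_option linter.unusedSectionVars false
set_option synthInstance.maxSize 100000
set_option maxRecDepth 4000

namespace AO

open SW

/-- a free basis of the range of an injective homomorphism -/
theorem FB_of_inj {K G : Type*} [Group K] [Group G] (φ : K →* G) (hφ : Function.Injective φ)
    (B : Set G) (B' : Set K) (H : Subgroup G) (hH : φ.range = H) (hB : φ '' B' = B)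
    (h : FB B H) : FB B' ⊤ := by
  obtain ⟨h1, h2⟩ := h
  constructor
  · have hmem : ∀ b : B', φ b ∈ B := fun b => hB ▸ ⟨b, b.2, rfl⟩
    have hei : Function.Injective (fun b : B' => (⟨φ b, hmem b⟩ : B)) := by
      intro a b hab
      exact Subtype.ext (hφ (congrArg Subtype.val hab))
    have hcomp : ∀ w : FreeGroup B', φ (FreeGroup.lift (fun b : B' => (b : K)) w) =
        FreeGroup.lift (fun b : B => (b : G)) (FreeGroup.map (fun b : B' => (⟨φ b, hmem b⟩ : B)) w) := by
      intro w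
      have : φ.comp (FreeGroup.lift (fun b : B' => (b : K))) =
          (FreeGroup.lift (fun b : B => (b : G))).comp
            (FreeGroup.map (fun b : B' => (⟨φ b, hmem b⟩ : B))) := by
        ext b
        simp
      exact DFunLike.congr_fun this w
    intro a b hab
    have := congrArg φ hab
    rw [hcomp, hcomp] at this
    exact FreeGroup.map_injective hei (h1 this)
  · apply Subgroup.map_injective hφ
    rw [MonoidHom.map_closure, hB, h2, ← hH, MonoidHom.range_eq_map]

theorem nsi_cl {N : Type} [SetStr N] [ZF N] (G m B T e : N) :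
    Cl (fun h : N => h ≠ e ∧ ∃ t b t' u, E t G ∧ E b G ∧ E t' G ∧ E u G ∧ E t T ∧ E b B ∧
      E t' T ∧ Trp t b u m ∧ Trp h t' u m) := by
  unfold Trp PairIn IsOP
  infer_instance

theorem nsi (nsx : NSXStmt) (trv : TRVStmt) (gpi : GPIStmt) (gpj : GPJStmt) : NSIStmt := by
  intro N _ _ hS G m B H hG hB hHG hH
  obtain ⟨iG, hR⟩ := gpi N G m hG
  obtain ⟨S, hSm⟩ := (gpj N G m H hG hR hHG).1 hH
  have hFB := hB.2 hR
  obtain ⟨T, len, h1T, hT1, hT2, hT3⟩ := trv N hS G m B H hR hB.1 hFB.2 S hSm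
  have hX := nsx {x : N // E x G} (EX G B) S (EX G T) len hFB h1T hT1 hT2 hT3
  have hC := nsi_cl G m B T (1 : {x : N // E x G}).1
  refine ⟨sep H (fun h : N => h ≠ (1 : {x : N // E x G}).1 ∧ ∃ t b t' u, E t G ∧ E b G ∧ E t' G ∧
    E u G ∧ E t T ∧ E b B ∧ E t' T ∧ Trp t b u m ∧ Trp h t' u m), ?_, ?_⟩
  · intro x hx
    exact ((mem_sep' hC).1 hx).1
  · intro iH hRH
    -- the inclusion of `H` into `G`
    let φ : {x : N // E x H} →* {x : N // E x G} :=
      { toFun := fun x => ⟨x.1, hHG x.1 x.2⟩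
        map_one' := by
          have h := (hRH 1 1 1).2 (mul_one 1)
          have h' := (hR ⟨(1 : {x : N // E x H}).1, hHG _ (1 : {x : N // E x H}).2⟩
            ⟨(1 : {x : N // E x H}).1, hHG _ (1 : {x : N // E x H}).2⟩
            ⟨(1 : {x : N // E x H}).1, hHG _ (1 : {x : N // E x H}).2⟩).1 h
          exact mul_eq_left.1 h'
        map_mul' := fun a b => ((hR ⟨a.1, hHG _ a.2⟩ ⟨b.1, hHG _ b.2⟩ ⟨(a * b).1, hHG _ (a * b).2⟩).1
          ((hRH a b (a * b)).2 rfl)).symm }
    have hφ : ∀ x, (φ x).1 = x.1 := fun x => rfl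
    have hφi : Function.Injective φ := fun a b hab =>
      Subtype.ext (congrArg Subtype.val hab : (φ a).1 = (φ b).1)
    refine FB_of_inj φ hφi _ _ S ?_ ?_ hX
    · ext x
      constructor
      · rintro ⟨y, rfl⟩
        exact (hSm _).2 y.2
      · intro hx
        exact ⟨⟨x.1, (hSm _).1 hx⟩, rfl⟩
    · ext x
      constructor
      · rintro ⟨y, hy, rfl⟩
        obtain ⟨hyH, hy1, t, b, t', u, ht, hb, ht', hu, htT, hbB, htT', h1, h2⟩ := (mem_sep' hC).1 hy
        refine ⟨(hSm _).2 y.2, fun h => hy1 (congrArg Subtype.val h), ⟨t, ht⟩, htT, ⟨b, hb⟩, hbB,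
          ⟨t', ht'⟩, htT', ?_⟩
        have e1 := (hR ⟨t, ht⟩ ⟨b, hb⟩ ⟨u, hu⟩).1 h1
        have e2 := (hR (φ y) ⟨t', ht'⟩ ⟨u, hu⟩).1 h2
        rw [e1, ← e2, mul_inv_cancel_right]
      · rintro ⟨hxS, hx1, t, ht, b, hb, t', ht', hx⟩
        refine ⟨⟨x.1, (hSm _).1 hxS⟩, ?_, rfl⟩
        refine (mem_sep' hC).2 ⟨(hSm _).1 hxS, fun h => hx1 (Subtype.ext h), t.1, b.1, t'.1,
          (t * b).1, t.2, b.2, t'.2, (t * b).2, ht, hb, ht', (hR t b (t * b)).2 rfl, ?_⟩
        refine (hR x t' (t * b)).2 ?_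
        rw [hx, inv_mul_cancel_right]

end AO
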