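import Pool.Agent.H98.AO.BStmts

/-!
Module RGA: successor alephs are regular.
-/

set_option linter.unusedVariables false
set_option linter.unusedSectionVars false
set_option synthInstance.maxSize 100000
set_option maxRecDepth 4000

namespace AO

open SW

theorem rga (alf : ALFStmt) (szf : SZFStmt) : RGAStmt := by
  intro M _ _ n w s hw hs hsz
  have A := alf M
  have S := szf M
  have hwo : Ord w := A.ord _ _ hw
  have hf : Fn1 (fun a : M => SW.suc a) := by infer_instance
  have hmem : ∀ y, E y (img s (fun a : M => SW.suc a)) → ∃ a, E a s ∧ y = SW.suc a := fun y hy => by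
    rw [mem_img' hf] at hy
    exact hy
  have hbo : Ord (sUn (img s (fun a : M => SW.suc a))) := by
    refine Ord_sUn fun y hy => ?_
    obtain ⟨a, ha, rfl⟩ := hmem y hy
    exact Ord_suc (hwo.mem (hs a ha))
  have hbn : Sz n (sUn (img s (fun a : M => SW.suc a))) := by
    refine S.iUn n s _ hf hsz fun a ha => ?_
    exact A.small n w _ hw (A.suc _ _ _ hw (hs a ha))
  refine ⟨sUn (img s (fun a : M => SW.suc a)), ?_, ?_⟩
  · rcases hbo.tri hwo with h | h | h
    · exact h
    · exact absurd (h ▸ hbn) (S.not n w hw)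
    · exfalso
      rw [mem_sUn] at h
      obtain ⟨y, hy, hwy⟩ := h
      obtain ⟨a, ha, rfl⟩ := hmem y hy
      have haw := A.suc _ _ _ hw (hs a ha)
      exact not_mem_cycle haw hwy
  · intro a ha
    rw [mem_sUn]
    refine ⟨SW.suc a, (mem_img' hf).2 ⟨a, ha, rfl⟩, ?_⟩
    rw [mem_suc]
    right; rfl

end AO
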